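import Pool.Agent.H539R3.BR.Main

/-! The field `k(t_i : i ∈ ℤ)` with the shift. -/

set_option autoImplicit false

namespace H539R3.BR

open MvPolynomial

variable (k : Type*) [Field k]

/-- the field of rational functions in `t_i`, `i ∈ ℤ` -/
abbrev LL : Type _ := FractionRing (MvPolynomial ℤ k)

/-- the shift of the variables -/
noncomputable def shp : MvPolynomial ℤ k ≃ₐ[k] MvPolynomial ℤ k :=
  MvPolynomial.renameEquiv k (Equiv.addRight (1 : ℤ))

/-- the shift automorphism of the field -/
noncomputable def sg : LL k ≃ₐ[k] LL k :=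
  AlgEquiv.ofRingEquiv (f := IsFractionRing.ringEquivOfRingEquiv (A := MvPolynomial ℤ k)
    (K := LL k) (B := MvPolynomial ℤ k) (L := LL k) (shp k).toRingEquiv) (by
    intro r
    rw [IsScalarTower.algebraMap_apply k (MvPolynomial ℤ k) (LL k),
      IsFractionRing.ringEquivOfRingEquiv_algebraMap]
    congr 1
    exact (shp k).commutes r)

theorem sg_algebraMap (p : MvPolynomial ℤ k) :
    sg k (algebraMap _ (LL k) p) = algebraMap _ (LL k) (shp k p) := by
  show IsFractionRing.ringEquivOfRingEquiv (A := MvPolynomial ℤ k)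
    (K := LL k) (B := MvPolynomial ℤ k) (L := LL k) (shp k).toRingEquiv (algebraMap _ (LL k) p) = _
  rw [IsFractionRing.ringEquivOfRingEquiv_algebraMap]
  rfl

/-- the element `t_0` -/
noncomputable def t0 : LL k := algebraMap (MvPolynomial ℤ k) (LL k) (X 0)

/-- exponents of words -/
noncomputable def ex : List (Fin 2) → (ℤ →₀ ℕ)
  | [] => 0
  | z :: w => (if z = 0 then 0 else Finsupp.single 0 1) + Finsupp.mapDomain (fun i => i + 1) (ex w)

theorem lc_eq (w : List (Fin 2)) :
    lc (sg k) (t0 k) w = algebraMap (MvPolynomial ℤ k) (LL k) (monomial (ex w) 1) := by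
  induction w with
  | nil => simp [lc, ex]
  | cons z w ih =>
    have h1 : shp k (monomial (ex w) 1) =
        monomial (Finsupp.mapDomain (fun i => i + 1) (ex w)) (1 : k) := by
      show rename _ _ = _
      rw [rename_monomial]
      rfl
    rw [lc, ih, sg_algebraMap, h1, ex]
    by_cases hz : z = 0
    · rw [if_pos hz, if_pos hz, one_mul, zero_add]
    · rw [if_neg hz, if_neg hz, t0, ← map_mul, X, monomial_mul, one_mul]

theorem ex_neg (w : List (Fin 2)) (i : ℤ) (hi : i < 0) : ex w i = 0 := by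
  induction w generalizing i with
  | nil => rfl
  | cons z w ih =>
    have h1 : Finsupp.mapDomain (fun i : ℤ => i + 1) (ex w) i = 0 := by
      have h2 := Finsupp.mapDomain_apply (f := fun i : ℤ => i + 1)
        (fun a b h => add_right_cancel h) (ex w) (i - 1)
      rw [sub_add_cancel] at h2
      rw [h2, ih (i - 1) (by omega)]
    rw [ex, Finsupp.add_apply, h1, add_zero]
    split_ifs
    · rfl
    · rw [Finsupp.single_apply, if_neg (by omega)]

theorem ex_cons_zero (z : Fin 2) (w : List (Fin 2)) : ex (z :: w) 0 = if z = 0 then 0 else 1 := by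
  have h1 : Finsupp.mapDomain (fun i : ℤ => i + 1) (ex w) 0 = 0 := by
    have h2 := Finsupp.mapDomain_apply (f := fun i : ℤ => i + 1)
      (fun a b h => add_right_cancel h) (ex w) (-1)
    rw [neg_add_cancel] at h2
    rw [h2, ex_neg w (-1) (by omega)]
  rw [ex, Finsupp.add_apply, h1, add_zero]
  split_ifs
  · rfl
  · rw [Finsupp.single_apply, if_pos rfl]

theorem ex_inj (w w' : List (Fin 2)) (hl : w.length = w'.length) (h : ex w = ex w') : w = w' := by
  induction w generalizing w' with
  | nil =>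
    cases w' with
    | nil => rfl
    | cons z w' => simp at hl
  | cons z w ih =>
    cases w' with
    | nil => simp at hl
    | cons z' w' =>
      have h0 : ex (z :: w) 0 = ex (z' :: w') 0 := by rw [h]
      rw [ex_cons_zero, ex_cons_zero] at h0
      have hz : z = z' := by
        by_cases h1 : z = 0 <;> by_cases h2 : z' = 0
        · rw [h1, h2]
        · rw [if_pos h1, if_neg h2] at h0; exact absurd h0 (by norm_num)
        · rw [if_neg h1, if_pos h2] at h0; exact absurd h0 (by norm_num)
        · omega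
      subst hz
      rw [ex, ex] at h
      have h3 := add_left_cancel h
      have h4 := Finsupp.mapDomain_injective (fun a b h => add_right_cancel h) h3
      rw [ih w' (by simpa using hl) h4]

theorem indep : Indep (k := k) (sg k) (t0 k) := by
  intro n c hc h
  have h1 : (c.sum fun w r => r • lc (sg k) (t0 k) w) =
      algebraMap (MvPolynomial ℤ k) (LL k) (∑ w ∈ c.support, monomial (ex w) (c w)) := by
    rw [map_sum, Finsupp.sum]
    refine Finset.sum_congr rfl fun w _ => ?_
    rw [lc_eq, Algebra.smul_def, IsScalarTower.algebraMap_apply k (MvPolynomial ℤ k) (LL k),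
      ← map_mul]
    congr 1
    rw [MvPolynomial.algebraMap_eq, C_mul_monomial, mul_one]
  rw [h1] at h
  have h2 : (∑ w ∈ c.support, monomial (ex w) (c w)) = (0 : MvPolynomial ℤ k) := by
    apply IsFractionRing.injective (MvPolynomial ℤ k) (LL k)
    rw [h, map_zero]
  by_contra h0
  obtain ⟨w0, hw0⟩ := Finsupp.support_nonempty_iff.mpr h0
  have h3 := congrArg (coeff (ex w0)) h2
  rw [coeff_sum, coeff_zero, Finset.sum_eq_single w0] at h3
  · rw [coeff_monomial, if_pos rfl] at h3
    exact (Finsupp.mem_support_iff.mp hw0) h3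
  · intro w hw hne
    rw [coeff_monomial, if_neg]
    intro h4
    exact hne (ex_inj w w0 (by rw [hc w hw, hc w0 hw0]) h4)
  · intro h4
    exact absurd hw0 h4

theorem one_add_t0_ne : (1 : LL k) + t0 k ≠ 0 := by
  intro h
  have h1 : (1 + X 0 : MvPolynomial ℤ k) = 0 := by
    apply IsFractionRing.injective (MvPolynomial ℤ k) (LL k)
    rw [map_add, map_one, map_zero]
    exact h
  have h2 := congrArg (coeff 0) h1
  rw [coeff_add, coeff_zero, coeff_one, coeff_X, if_pos rfl] at h2
  rw [if_neg (by
    intro h5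
    have := congrArg (fun f => f 0) h5
    simp at this), add_zero] at h2
  exact one_ne_zero h2

theorem ex_tau : ∃ τ : LL k →ₗ[k] k, τ ((sg k).symm (1 + t0 k)⁻¹) = 1 := by
  have h0 : (sg k).symm (1 + t0 k)⁻¹ ≠ 0 := by
    intro h
    have h1 : (1 + t0 k)⁻¹ = 0 := by
      apply (sg k).symm.injective
      rw [h, map_zero]
    exact one_add_t0_ne k (inv_eq_zero.mp h1)
  have h2 : ¬ ∀ φ : Module.Dual k (LL k), φ ((sg k).symm (1 + t0 k)⁻¹) = 0 := fun h =>
    h0 ((Module.forall_dual_apply_eq_zero_iff k _).mp h)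
  push Not at h2
  obtain ⟨φ, hφ⟩ := h2
  refine ⟨(φ ((sg k).symm (1 + t0 k)⁻¹))⁻¹ • φ, ?_⟩
  rw [LinearMap.smul_apply, smul_eq_mul, inv_mul_cancel₀ hφ]

/-- the exotic function -/
theorem exotic : ∃ f : FreeAlgebra k (Fin 2) → k, (∀ a, f (1 + a) = 1 + f a) ∧
    (∀ a b, f (a * b) = f a * f b) ∧ f (FreeAlgebra.ι k 0) = 0 ∧ f (FreeAlgebra.ι k 1) = 0 ∧
    f (FreeAlgebra.ι k 0 + FreeAlgebra.ι k 1) = 1 := by
  obtain ⟨τ, hτ⟩ := ex_tau k
  choose f hf using R_ex (sg k) (t0 k) τ (indep k)
  have key : ∀ a r, R (sg k) (t0 k) τ a r → f a = r := fun a r h =>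
    R_unique (sg k) (t0 k) τ (indep k) a _ _ (hf a) h
  exact ⟨f, fun a => key _ _ (R_add _ _ _ (indep k) a _ (hf a)),
    fun a b => key _ _ (R_mul _ _ _ (indep k) a b _ _ (hf a) (hf b)),
    key _ _ (R_x _ _ _), key _ _ (R_y _ _ _), key _ _ (R_xy _ _ _ (one_add_t0_ne k) hτ)⟩

end H539R3.BR
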