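import Pool.Agent.H539R3.BR.Ops

/-! The exotic function on the free algebra. -/

set_option autoImplicit false

namespace H539R3.BR

section general
variable {k L : Type*} [Field k] [Field L] [Algebra k L]
variable (σ : L ≃ₐ[k] L) (t : L) (τ : L →ₗ[k] k)

/-- operators with the right filtration properties -/
def Good (T : Module.End k (k × (ℤ → L))) : Prop := ∃ (n : ℕ) (l : L), l ≠ 0 ∧
  (∀ m v, Fil m v → Fil (m - n) (T (0, v)).2) ∧
  (∀ m v, Fil m v → (T (0, v)).2 (m - n) = l * (σ : L → L)^[n] (v m)) ∧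
  (∀ m v, Fil m v → (n : ℤ) + 1 ≤ m → (T (0, v)).1 = 0) ∧ Fil (1 - n) (T (1, 0)).2

/-- leading coefficients are independent -/
def Indep : Prop := ∀ (n : ℕ) (c : List (Fin 2) →₀ k), (∀ w ∈ c.support, w.length = n) →
  (c.sum fun w r => r • lc σ t w) = 0 → c = 0

theorem good_sum (hI : Indep (k := k) σ t) (c : List (Fin 2) →₀ k) (hc : c ≠ 0) :
    Good σ (c.sum fun w r => r • ow σ t τ w) := by
  classical
  set T : Module.End k (k × (ℤ → L)) := c.sum fun w r => r • ow σ t τ w with hT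
  set n : ℕ := c.support.sup List.length with hn
  have hle : ∀ w ∈ c.support, w.length ≤ n := fun w hw => Finset.le_sup (f := List.length) hw
  have hval : ∀ p, T p = ∑ w ∈ c.support, c w • ow σ t τ w p := by
    intro p
    rw [hT, Finsupp.sum, LinearMap.sum_apply]
    rfl
  have hsnd : ∀ p, (T p).2 = ∑ w ∈ c.support, c w • (ow σ t τ w p).2 := by
    intro p
    rw [hval, Prod.snd_sum]
    rfl
  have hfst : ∀ p, (T p).1 = ∑ w ∈ c.support, c w • (ow σ t τ w p).1 := by
    intro p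
    rw [hval, Prod.fst_sum]
    rfl
  let c' : List (Fin 2) →₀ k := c.filter fun w => w.length = n
  have hc' : c' ≠ 0 := by
    obtain ⟨w0, hw0, he⟩ := Finset.exists_mem_eq_sup c.support
      (Finsupp.support_nonempty_iff.mpr hc) List.length
    intro h
    have h1 : c' w0 = c w0 := Finsupp.filter_apply_pos _ _ (by rw [hn, he])
    rw [h] at h1
    exact (Finsupp.mem_support_iff.mp hw0) h1.symm
  have hsupp : ∀ w ∈ c'.support, w.length = n := by
    intro w hw
    rw [Finsupp.support_filter, Finset.mem_filter] at hw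
    exact hw.2
  have hl : (c'.sum fun w r => r • lc σ t w) ≠ 0 := fun h => hc' (hI n c' hsupp h)
  refine ⟨n, _, hl, ?_, ?_, ?_, ?_⟩
  · intro m v hv
    rw [hsnd]
    refine Fil.sum _ _ fun w hw => ?_
    refine Fil.smul ?_ _
    refine (word_one σ t τ w m v hv).1.mono ?_
    have := hle w hw
    omega
  · intro m v hv
    rw [hsnd, Finset.sum_apply, Finsupp.sum, Finset.sum_mul, Finsupp.support_filter,
      Finset.sum_filter]
    refine Finset.sum_congr rfl fun w hw => ?_
    split_ifs with h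
    · have h2 := (word_one σ t τ w m v hv).2.1
      rw [h] at h2
      rw [Pi.smul_apply, h2, smul_mul_assoc]
      congr 1
      exact (Finsupp.filter_apply_pos (fun w : List (Fin 2) => w.length = n) c h).symm
    · have h2 := (word_one σ t τ w m v hv).1 (m - n) (by
        have := hle w hw
        omega)
      rw [Pi.smul_apply, h2, smul_zero]
  · intro m v hv hm
    rw [hfst]
    refine Finset.sum_eq_zero fun w hw => ?_
    have h2 := (word_one σ t τ w m v hv).2.2 (by
      have := hle w hw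
      omega)
    rw [h2, smul_zero]
  · rw [hsnd]
    refine Fil.sum _ _ fun w hw => ?_
    refine Fil.smul ?_ _
    refine (word_two σ t τ w).mono ?_
    have := hle w hw
    omega

/-- the representation of the free algebra -/
noncomputable def Q : FreeAlgebra k (Fin 2) →ₐ[k] Module.End k (k × (ℤ → L)) :=
  FreeAlgebra.lift k (op σ t τ)

theorem Q_ι (z : Fin 2) : Q σ t τ (FreeAlgebra.ι k z) = op σ t τ z := FreeAlgebra.lift_ι_apply _ _

theorem span_words (a : FreeAlgebra k (Fin 2)) :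
    a ∈ Submodule.span k (Set.range fun w : List (Fin 2) => (w.map (FreeAlgebra.ι k)).prod) := by
  induction a using FreeAlgebra.induction with
  | grade0 r =>
    rw [Algebra.algebraMap_eq_smul_one]
    exact Submodule.smul_mem _ _ (Submodule.subset_span ⟨[], rfl⟩)
  | grade1 z => exact Submodule.subset_span ⟨[z], by simp⟩
  | mul a b ha hb =>
    have h := Submodule.mul_mem_mul ha hb
    rw [Submodule.span_mul_span] at h
    refine Submodule.span_mono ?_ h
    rintro _ ⟨_, ⟨w, rfl⟩, _, ⟨w', rfl⟩, rfl⟩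
    exact ⟨w ++ w', by simp⟩
  | add a b ha hb => exact add_mem ha hb

theorem Q_word (w : List (Fin 2)) : Q σ t τ (w.map (FreeAlgebra.ι k)).prod = ow σ t τ w := by
  induction w with
  | nil => exact map_one _
  | cons z w ih => rw [List.map_cons, List.prod_cons, map_mul, ih, Q_ι]; rfl

theorem good_Q (hI : Indep (k := k) σ t) (a : FreeAlgebra k (Fin 2)) (ha : a ≠ 0) :
    Good σ (Q σ t τ a) := by
  obtain ⟨c, hc⟩ := Finsupp.mem_span_range_iff_exists_finsupp.mp (span_words a)
  have h0 : c ≠ 0 := by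
    rintro rfl
    exact ha (by rw [← hc, Finsupp.sum_zero_index])
  have h1 : Q σ t τ a = c.sum fun w r => r • ow σ t τ w := by
    rw [← hc, map_finsuppSum]
    refine Finsupp.sum_congr fun w _ => ?_
    rw [map_smul, Q_word]
  rw [h1]
  exact good_sum σ t τ hI c h0

/-- `r` is the value at `a` -/
def R (a : FreeAlgebra k (Fin 2)) (r : k) : Prop :=
  ∃ v : ℤ → L, Fil 1 v ∧ Q σ t τ a (1, -v) = (r, 0)

/-- the lower corner -/
def dd (T : Module.End k (k × (ℤ → L))) : (ℤ → L) →ₗ[k] (ℤ → L) :=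
  (LinearMap.snd k k (ℤ → L)).comp (T.comp (LinearMap.inr k k (ℤ → L)))

theorem dd_apply (T : Module.End k (k × (ℤ → L))) (v : ℤ → L) : dd T v = (T (0, v)).2 := rfl

theorem good_solve {T : Module.End k (k × (ℤ → L))} (hT : Good σ T) (v : ℤ → L) (hv : Fil 1 v) :
    ∃ w : ℤ → L, Fil 1 w ∧ T (0, w) = (0, v) := by
  obtain ⟨n, l, hl, h1, h2, h3, -⟩ := hT
  obtain ⟨w, hw, he⟩ := solve σ (dd T) n l hl h1 h2 (n + 1) v (hv.mono (by omega))
  exact ⟨w, hw.mono (by omega), Prod.ext (h3 _ w hw le_rfl) he⟩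

omit [Algebra k L] in
theorem pair_sub (v : ℤ → L) : ((1 : k), -v) = (1, 0) - (0, v) := by
  refine Prod.ext ?_ ?_
  · show (1 : k) = 1 - 0
    rw [sub_zero]
  · show -v = 0 - v
    rw [zero_sub]

theorem R_zero : R σ t τ 0 0 := ⟨0, Fil.zero 1, by rw [map_zero]; rfl⟩

theorem R_ex (hI : Indep (k := k) σ t) (a : FreeAlgebra k (Fin 2)) : ∃ r, R σ t τ a r := by
  by_cases ha : a = 0
  · subst ha; exact ⟨0, R_zero σ t τ⟩
  · obtain ⟨n, l, hl, h1, h2, h3, h4⟩ := good_Q σ t τ hI a ha
    obtain ⟨v, hv, he⟩ := solve σ (dd (Q σ t τ a)) n l hl h1 h2 1 _ h4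
    refine ⟨(Q σ t τ a (1, -v)).1, v, hv, Prod.ext rfl ?_⟩
    show (Q σ t τ a (1, -v)).2 = 0
    rw [pair_sub, map_sub, Prod.snd_sub, ← he, dd_apply, sub_self]

theorem R_unique (hI : Indep (k := k) σ t) (a : FreeAlgebra k (Fin 2)) (r s : k)
    (hr : R σ t τ a r) (hs : R σ t τ a s) : r = s := by
  obtain ⟨v, hv, hv'⟩ := hr
  obtain ⟨w, hw, hw'⟩ := hs
  by_cases ha : a = 0
  · subst ha
    rw [map_zero] at hv' hw'
    have h1 := congrArg Prod.fst hv'
    have h2 := congrArg Prod.fst hw'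
    exact (h1.symm.trans rfl).trans h2
  · obtain ⟨n, l, hl, h1, h2, h3, h4⟩ := good_Q σ t τ hI a ha
    have e : Q σ t τ a (0, w - v) = (r - s, 0) := by
      have : ((0 : k), w - v) = (1, -v) - (1, -w) := by
        refine Prod.ext ?_ ?_
        · show (0 : k) = 1 - 1
          rw [sub_self]
        · show w - v = -v - -w
          abel
      rw [this, map_sub, hv', hw']
      refine Prod.ext rfl ?_
      show (0 : ℤ → L) - 0 = 0
      rw [sub_zero]
    have h5 : w - v = 0 := solve_unique σ (dd (Q σ t τ a)) n l hl h2 1 (w - v) (hw.sub hv)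
      (congrArg Prod.snd e)
    rw [h5] at e
    have h6 : Q σ t τ a ((0 : k), (0 : ℤ → L)) = 0 := map_zero _
    rw [h6] at e
    have h7 := congrArg Prod.fst e
    have h8 : r - s = 0 := h7.symm
    exact sub_eq_zero.mp h8

theorem R_mul (hI : Indep (k := k) σ t) (a b : FreeAlgebra k (Fin 2)) (r s : k)
    (hr : R σ t τ a r) (hs : R σ t τ b s) : R σ t τ (a * b) (r * s) := by
  by_cases hb : b = 0
  · subst hb
    have : s = 0 := R_unique σ t τ hI 0 s 0 hs (R_zero σ t τ)
    rw [this, mul_zero, mul_zero]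
    exact R_zero σ t τ
  · obtain ⟨v, hv, hv'⟩ := hr
    obtain ⟨u, hu, hu'⟩ := hs
    obtain ⟨w, hw, hw'⟩ := good_solve σ (good_Q σ t τ hI b hb) (s • v) (hv.smul s)
    refine ⟨u + w, hu.add hw, ?_⟩
    have e1 : Q σ t τ b (1, -(u + w)) = s • ((1 : k), -v) := by
      have : ((1 : k), -(u + w)) = (1, -u) - (0, w) := by
        refine Prod.ext ?_ ?_
        · show (1 : k) = 1 - 0
          rw [sub_zero]
        · show -(u + w) = -u - w
          abel
      rw [this, map_sub, hu', hw']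
      refine Prod.ext ?_ ?_
      · show s - 0 = s * 1
        ring
      · show (0 : ℤ → L) - s • v = s • -v
        rw [zero_sub, smul_neg]
    rw [map_mul]
    show Q σ t τ a (Q σ t τ b (1, -(u + w))) = _
    rw [e1, map_smul, hv']
    refine Prod.ext ?_ ?_
    · show s * r = r * s
      ring
    · show s • (0 : ℤ → L) = 0
      rw [smul_zero]

theorem R_neg_one : R σ t τ (-1) (-1) := ⟨0, Fil.zero 1, by
  rw [map_neg, map_one]
  refine Prod.ext rfl ?_
  show -(-(0 : ℤ → L)) = 0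
  rw [neg_zero, neg_zero]⟩

theorem R_add (hI : Indep (k := k) σ t) (a : FreeAlgebra k (Fin 2)) (r : k)
    (hr : R σ t τ a r) : R σ t τ (1 + a) (1 + r) := by
  by_cases hb : 1 + a = 0
  · have ha : a = -1 := by rw [eq_neg_iff_add_eq_zero, add_comm]; exact hb
    rw [hb]
    rw [ha] at hr
    have : r = -1 := R_unique σ t τ hI _ _ _ hr (R_neg_one σ t τ)
    rw [this, add_neg_cancel]
    exact R_zero σ t τ
  · obtain ⟨v, hv, hv'⟩ := hr
    obtain ⟨w, hw, hw'⟩ := good_solve σ (good_Q σ t τ hI _ hb) v hv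
    refine ⟨v - w, hv.sub hw, ?_⟩
    have : ((1 : k), -(v - w)) = (1, -v) + (0, w) := by
      refine Prod.ext ?_ ?_
      · show (1 : k) = 1 + 0
        rw [add_zero]
      · show -(v - w) = -v + w
        abel
    rw [this, map_add, hw', map_add, map_one]
    show ((1 : k), -v) + Q σ t τ a (1, -v) + (0, v) = _
    rw [hv']
    refine Prod.ext ?_ ?_
    · show (1 : k) + r + 0 = 1 + r
      rw [add_zero]
    · show -v + 0 + v = 0
      abel

theorem R_x : R σ t τ (FreeAlgebra.ι k 0) 0 := by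
  refine ⟨Pi.single 1 1, fun i hi => by rw [Pi.single_apply, if_neg (ne_of_lt hi)], ?_⟩
  rw [Q_ι]
  refine Prod.ext rfl ?_
  funext i
  show ((1 : k) • (Pi.single 0 1 : ℤ → L)) i + σ ((-(Pi.single 1 1 : ℤ → L)) (i + 1)) = 0
  rw [one_smul, Pi.neg_apply, map_neg, Pi.single_apply, Pi.single_apply]
  by_cases h : i = 0
  · subst h; simp
  · rw [if_neg h, if_neg (by omega), map_zero, neg_zero, add_zero]

theorem R_y : R σ t τ (FreeAlgebra.ι k 1) 0 := by
  refine ⟨0, Fil.zero 1, ?_⟩
  rw [Q_ι, op, if_neg (by decide)]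
  refine Prod.ext ?_ ?_
  · show -τ ((-(0 : ℤ → L)) 1) = 0
    simp
  · funext i
    show t * σ ((-(0 : ℤ → L)) (i + 1)) = 0
    simp

theorem R_xy (ht : 1 + t ≠ 0) (hτ : τ (σ.symm (1 + t)⁻¹) = 1) :
    R σ t τ (FreeAlgebra.ι k 0 + FreeAlgebra.ι k 1) 1 := by
  refine ⟨Pi.single 1 (σ.symm (1 + t)⁻¹),
    fun i hi => by rw [Pi.single_apply, if_neg (ne_of_lt hi)], ?_⟩
  rw [map_add, Q_ι, Q_ι]
  show opX σ (1, -(Pi.single 1 (σ.symm (1 + t)⁻¹) : ℤ → L)) +
    opY σ t τ (1, -(Pi.single 1 (σ.symm (1 + t)⁻¹) : ℤ → L)) = _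
  refine Prod.ext ?_ ?_
  · show (0 : k) + -τ ((-(Pi.single 1 (σ.symm (1 + t)⁻¹) : ℤ → L)) 1) = 1
    rw [Pi.neg_apply, Pi.single_eq_same, map_neg, hτ]; ring
  · funext i
    show ((1 : k) • (Pi.single 0 1 : ℤ → L)) i +
      σ ((-(Pi.single 1 (σ.symm (1 + t)⁻¹) : ℤ → L)) (i + 1)) +
      t * σ ((-(Pi.single 1 (σ.symm (1 + t)⁻¹) : ℤ → L)) (i + 1)) = 0
    rw [one_smul, Pi.neg_apply, map_neg, Pi.single_apply, Pi.single_apply]
    by_cases h : i = 0
    · subst h
      rw [if_pos rfl, if_pos (by norm_num), AlgEquiv.apply_symm_apply]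
      field_simp
      ring
    · rw [if_neg h, if_neg (by omega), map_zero, neg_zero, mul_zero, add_zero, add_zero]

end general

end H539R3.BR
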