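import Mathlib

/-! Two operators on `k × (ℤ → L)` and the solution of filtered linear equations. -/

set_option autoImplicit false

namespace H539R3.BR

variable {k L : Type*} [Field k] [Field L] [Algebra k L]

/-- sequences vanishing below `m` -/
def Fil (m : ℤ) (v : ℤ → L) : Prop := ∀ i < m, v i = 0

theorem Fil.mono {m n : ℤ} {v : ℤ → L} (h : Fil m v) (hn : n ≤ m) : Fil n v :=
  fun i hi => h i (lt_of_lt_of_le hi hn)

theorem Fil.add {m : ℤ} {v w : ℤ → L} (h : Fil m v) (h' : Fil m w) : Fil m (v + w) := fun i hi => by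
  rw [Pi.add_apply, h i hi, h' i hi, add_zero]

theorem Fil.sub {m : ℤ} {v w : ℤ → L} (h : Fil m v) (h' : Fil m w) : Fil m (v - w) := fun i hi => by
  rw [Pi.sub_apply, h i hi, h' i hi, sub_zero]

theorem Fil.smul {m : ℤ} {v : ℤ → L} (h : Fil m v) (c : k) : Fil m (c • v) := fun i hi => by
  rw [Pi.smul_apply, h i hi, smul_zero]

theorem Fil.zero (m : ℤ) : Fil m (0 : ℤ → L) := fun _ _ => rfl

theorem Fil.sum {ι : Type*} {m : ℤ} (s : Finset ι) (f : ι → ℤ → L) (h : ∀ i ∈ s, Fil m (f i)) :
    Fil m (∑ i ∈ s, f i) := fun j hj => by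
  rw [Finset.sum_apply]
  exact Finset.sum_eq_zero fun i hi => h i hi j hj

/-- solving a filtered equation -/
theorem solve (σ : L ≃ₐ[k] L) (D : (ℤ → L) →ₗ[k] (ℤ → L)) (n : ℕ) (l : L) (hl : l ≠ 0)
    (h1 : ∀ m v, Fil m v → Fil (m - n) (D v))
    (h2 : ∀ m v, Fil m v → D v (m - n) = l * (σ : L → L)^[n] (v m)) (m : ℤ) (w : ℤ → L)
    (hw : Fil (m - n) w) : ∃ v, Fil m v ∧ D v = w := by
  have hs : Function.Surjective ((σ : L → L)^[n]) := σ.surjective.iterate n
  choose g hg using hs
  let s : ℕ → (ℤ → L) := fun j => Nat.rec 0 (fun j vj => vj +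
    Pi.single (m + j) (g (l⁻¹ * (w - D vj) (m - n + j)))) j
  have s0 : s 0 = 0 := rfl
  have ss : ∀ j, s (j + 1) = s j + Pi.single (m + j) (g (l⁻¹ * (w - D (s j)) (m - n + j))) :=
    fun j => rfl
  have hsing : ∀ (j : ℤ) (c : L), Fil j (Pi.single j c : ℤ → L) := fun j c i hi => by
    rw [Pi.single_apply, if_neg (ne_of_lt hi)]
  have inv : ∀ j : ℕ, Fil (m - n + j) (w - D (s j)) := by
    intro j
    induction j with
    | zero =>
      rw [s0, map_zero, sub_zero]
      simpa using hw
    | succ j ih =>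
      intro i hi
      have e1 : w - D (s (j + 1)) = (w - D (s j)) -
          D (Pi.single (m + j) (g (l⁻¹ * (w - D (s j)) (m - n + j)))) := by
        rw [ss, map_add]; abel
      rw [e1, Pi.sub_apply]
      push_cast at hi
      rcases lt_or_eq_of_le (show i ≤ m - n + j by omega) with h | h
      · rw [ih i h, h1 (m + j) _ (hsing _ _) i (by omega), sub_zero]
      · have h3 := h2 (m + j) _ (hsing (m + j) (g (l⁻¹ * (w - D (s j)) (m - n + j))))
        rw [Pi.single_eq_same, hg] at h3
        have h4 : m + (j : ℤ) - n = i := by omega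
        rw [h4] at h3
        rw [h3, h]
        field_simp
        ring
  have stab : ∀ (i : ℤ) (j : ℕ), (i - m + 1).toNat ≤ j → s j i = s ((i - m + 1).toNat) i := by
    intro i j hj
    induction j, hj using Nat.le_induction with
    | base => rfl
    | succ j hj ih =>
      rw [ss, Pi.add_apply, ih, Pi.single_eq_of_ne (by omega), add_zero]
  let v : ℤ → L := fun i => s ((i - m + 1).toNat) i
  have hv : Fil m v := by
    intro i hi
    have : (i - m + 1).toNat = 0 := by omega
    show s ((i - m + 1).toNat) i = 0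
    rw [this, s0]; rfl
  have hvs : ∀ j : ℕ, Fil (m + j) (v - s j) := by
    intro j i hi
    show s ((i - m + 1).toNat) i - s j i = 0
    rw [stab i j (by omega), sub_self]
  refine ⟨v, hv, ?_⟩
  funext i
  obtain ⟨j, hj⟩ : ∃ j : ℕ, i < m - n + j := ⟨(i - (m - n) + 1).toNat, by omega⟩
  have e1 := inv j i hj
  have e2 := h1 _ _ (hvs j) i (by omega)
  rw [map_sub, Pi.sub_apply] at e2
  rw [Pi.sub_apply] at e1
  linear_combination e2 - e1

/-- uniqueness -/
theorem solve_unique (σ : L ≃ₐ[k] L) (D : (ℤ → L) →ₗ[k] (ℤ → L)) (n : ℕ) (l : L) (hl : l ≠ 0)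
    (h2 : ∀ m v, Fil m v → D v (m - n) = l * (σ : L → L)^[n] (v m)) (m : ℤ) (v : ℤ → L)
    (hv : Fil m v) (h : D v = 0) : v = 0 := by
  have hinj : Function.Injective ((σ : L → L)^[n]) := σ.injective.iterate n
  have h0 : (σ : L → L)^[n] 0 = 0 := by
    clear h2 hinj
    induction n with
    | zero => rfl
    | succ n ih => rw [Function.iterate_succ_apply', ih, map_zero]
  have key : ∀ j : ℕ, Fil (m + j) v := by
    intro j
    induction j with
    | zero => simpa using hv
    | succ j ih =>
      intro i hi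
      push_cast at hi
      rcases lt_or_eq_of_le (show i ≤ m + j by omega) with h3 | h3
      · exact ih i h3
      · have h4 := h2 _ _ ih
        rw [h, Pi.zero_apply] at h4
        have h5 : (σ : L → L)^[n] (v (m + j)) = 0 := by
          rcases mul_eq_zero.mp h4.symm with h6 | h6
          · exact absurd h6 hl
          · exact h6
        rw [h3]
        exact hinj (h5.trans h0.symm)
  funext i
  exact key (i - m + 1).toNat i (by omega)

section ops
variable (σ : L ≃ₐ[k] L) (t : L) (τ : L →ₗ[k] k)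

/-- the shift -/
def sh : (ℤ → L) →ₗ[k] (ℤ → L) where
  toFun v i := σ (v (i + 1))
  map_add' v w := by funext i; simp
  map_smul' c v := by funext i; simp

/-- the first operator -/
def opX : (k × (ℤ → L)) →ₗ[k] (k × (ℤ → L)) where
  toFun p := (0, p.1 • (Pi.single 0 1 : ℤ → L) + sh σ p.2)
  map_add' p q := by
    refine Prod.ext (by simp) ?_
    show (p.1 + q.1) • (Pi.single 0 1 : ℤ → L) + sh σ (p.2 + q.2) = _
    rw [map_add, add_smul]
    show _ = (p.1 • (Pi.single 0 1 : ℤ → L) + sh σ p.2) + (q.1 • (Pi.single 0 1 : ℤ → L) + sh σ q.2)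
    abel
  map_smul' c p := by
    refine Prod.ext (by simp) ?_
    show (c * p.1) • (Pi.single 0 1 : ℤ → L) + sh σ (c • p.2) =
      c • (p.1 • (Pi.single 0 1 : ℤ → L) + sh σ p.2)
    rw [map_smul, smul_add, mul_smul]

/-- the second operator -/
def opY : (k × (ℤ → L)) →ₗ[k] (k × (ℤ → L)) where
  toFun p := (-τ (p.2 1), fun i => t * sh σ p.2 i)
  map_add' p q := by
    refine Prod.ext ?_ ?_
    · show -τ ((p.2 + q.2) 1) = -τ (p.2 1) + -τ (q.2 1)
      rw [Pi.add_apply, map_add]; ring
    · funext i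
      show t * sh σ (p.2 + q.2) i = t * sh σ p.2 i + t * sh σ q.2 i
      rw [map_add, Pi.add_apply]; ring
  map_smul' c p := by
    refine Prod.ext ?_ ?_
    · show -τ ((c • p.2) 1) = c * -τ (p.2 1)
      rw [Pi.smul_apply, map_smul, smul_eq_mul]; ring
    · funext i
      show t * sh σ (c • p.2) i = c • (t * sh σ p.2 i)
      rw [map_smul, Pi.smul_apply, mul_smul_comm]

/-- the operators of the letters -/
def op (z : Fin 2) : Module.End k (k × (ℤ → L)) := if z = 0 then opX σ else opY σ t τ

/-- leading coefficients of words -/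
def lc : List (Fin 2) → L
  | [] => 1
  | z :: w => (if z = 0 then 1 else t) * σ (lc w)

/-- the operators of words -/
def ow : List (Fin 2) → Module.End k (k × (ℤ → L))
  | [] => 1
  | z :: w => op σ t τ z * ow w

theorem word_one (w : List (Fin 2)) (m : ℤ) (v : ℤ → L) (hv : Fil m v) :
    Fil (m - w.length) (ow σ t τ w (0, v)).2 ∧
    (ow σ t τ w (0, v)).2 (m - w.length) = lc σ t w * (σ : L → L)^[w.length] (v m) ∧
    ((w.length : ℤ) + 1 ≤ m → (ow σ t τ w (0, v)).1 = 0) := by
  induction w with
  | nil =>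
    refine ⟨?_, ?_, fun _ => rfl⟩
    · show Fil (m - (0 : ℕ)) v
      simpa using hv
    · show v (m - (0 : ℕ)) = 1 * v m
      simp
  | cons z w ih =>
    obtain ⟨h1, h2, h3⟩ := ih
    have hsh : Fil (m - (w.length + 1 : ℕ)) (sh σ (ow σ t τ w (0, v)).2) := by
      intro i hi
      show σ ((ow σ t τ w (0, v)).2 (i + 1)) = 0
      push_cast at hi
      rw [h1 (i + 1) (by omega), map_zero]
    have hshc : sh σ (ow σ t τ w (0, v)).2 (m - (w.length + 1 : ℕ)) =
        σ (lc σ t w) * (σ : L → L)^[w.length + 1] (v m) := by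
      show σ ((ow σ t τ w (0, v)).2 (m - (w.length + 1 : ℕ) + 1)) = _
      have : m - ((w.length + 1 : ℕ) : ℤ) + 1 = m - w.length := by push_cast; ring
      rw [this, h2, map_mul, Function.iterate_succ_apply']
    by_cases hz : z = 0
    · subst hz
      have e : ow σ t τ (0 :: w) (0, v) = (0, (ow σ t τ w (0, v)).1 • (Pi.single 0 1 : ℤ → L) +
          sh σ (ow σ t τ w (0, v)).2) := rfl
      have hsm : ∀ i : ℤ, i ≤ m - (w.length + 1 : ℕ) →
          ((ow σ t τ w (0, v)).1 • (Pi.single 0 1 : ℤ → L)) i = 0 := by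
        intro i hi
        push_cast at hi
        by_cases hm : (w.length : ℤ) + 1 ≤ m
        · rw [h3 hm, zero_smul]; rfl
        · rw [Pi.smul_apply, Pi.single_eq_of_ne (by omega), smul_zero]
      rw [e]
      refine ⟨?_, ?_, fun _ => rfl⟩
      · intro i hi
        rw [List.length_cons] at hi
        show ((ow σ t τ w (0, v)).1 • (Pi.single 0 1 : ℤ → L)) i + sh σ (ow σ t τ w (0, v)).2 i = 0
        rw [hsm i hi.le, hsh i hi, add_zero]
      · rw [List.length_cons]
        show ((ow σ t τ w (0, v)).1 • (Pi.single 0 1 : ℤ → L)) (m - (w.length + 1 : ℕ)) +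
          sh σ (ow σ t τ w (0, v)).2 (m - (w.length + 1 : ℕ)) = _
        rw [hsm _ le_rfl, hshc, zero_add]
        simp [lc]
    · have e : ow σ t τ (z :: w) (0, v) = (-τ ((ow σ t τ w (0, v)).2 1),
          fun i => t * sh σ (ow σ t τ w (0, v)).2 i) := by
        show op σ t τ z (ow σ t τ w (0, v)) = _
        rw [op, if_neg hz]; rfl
      rw [e]
      refine ⟨?_, ?_, ?_⟩
      · intro i hi
        rw [List.length_cons] at hi
        show t * _ = 0
        rw [hsh i hi, mul_zero]
      · rw [List.length_cons]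
        show t * _ = _
        rw [hshc, lc, if_neg hz, mul_assoc]
      · intro hm
        rw [List.length_cons] at hm
        push_cast at hm
        show -τ _ = 0
        rw [h1 1 (by omega), map_zero, neg_zero]

theorem word_two (w : List (Fin 2)) : Fil (1 - w.length) (ow σ t τ w (1, 0)).2 := by
  induction w with
  | nil => exact fun i _ => rfl
  | cons z w ih =>
    have hsh : Fil (1 - (w.length + 1 : ℕ)) (sh σ (ow σ t τ w (1, 0)).2) := by
      intro i hi
      show σ ((ow σ t τ w (1, 0)).2 (i + 1)) = 0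
      push_cast at hi
      rw [ih (i + 1) (by omega), map_zero]
    by_cases hz : z = 0
    · subst hz
      have e : ow σ t τ (0 :: w) (1, 0) = (0, (ow σ t τ w (1, 0)).1 • (Pi.single 0 1 : ℤ → L) +
          sh σ (ow σ t τ w (1, 0)).2) := rfl
      rw [e]
      intro i hi
      rw [List.length_cons] at hi
      show ((ow σ t τ w (1, 0)).1 • (Pi.single 0 1 : ℤ → L)) i + sh σ (ow σ t τ w (1, 0)).2 i = 0
      rw [hsh i hi, add_zero, Pi.smul_apply, Pi.single_eq_of_ne (by push_cast at hi; omega),
        smul_zero]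
    · have e : ow σ t τ (z :: w) (1, 0) = (-τ ((ow σ t τ w (1, 0)).2 1),
          fun i => t * sh σ (ow σ t τ w (1, 0)).2 i) := by
        show op σ t τ z (ow σ t τ w (1, 0)) = _
        rw [op, if_neg hz]; rfl
      rw [e]
      intro i hi
      rw [List.length_cons] at hi
      show t * _ = 0
      rw [hsh i hi, mul_zero]

end ops

end H539R3.BR
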